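import Mathlib

set_option autoImplicit false

/-!
# MP_197ffd: integer matrices with `det A = 1 = det (A ∘ A)`

For two rows `r`, `s`: minors `m j`, permanental minors `p j`, `KK = m 0 * m 1 * m 2`, `kap = p 0 * p 1 * p 2`.
-/

namespace Pool.Agent.helper31.Gor

/-- the minor `r_(j+1) s_(j+2) - r_(j+2) s_(j+1)` (indices mod 3) -/
def mi (r s : Fin 3 → ℤ) (j : Fin 3) : ℤ := r (j + 1) * s (j + 2) - r (j + 2) * s (j + 1)

/-- the same with a plus sign -/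
def pl (r s : Fin 3 → ℤ) (j : Fin 3) : ℤ := r (j + 1) * s (j + 2) + r (j + 2) * s (j + 1)

/-- the product of the three minors -/
def KK (r s : Fin 3 → ℤ) : ℤ := mi r s 0 * mi r s 1 * mi r s 2

/-- the product of the three permanental minors -/
def kap (r s : Fin 3 → ℤ) : ℤ := pl r s 0 * pl r s 1 * pl r s 2

/-- products of two of the permanental minors -/
def ww (r s : Fin 3 → ℤ) (j : Fin 3) : ℤ := pl r s (j + 1) * pl r s (j + 2)

/-- `det` of the matrix with rows `r`, `s`, `t` -/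
def dd (r s t : Fin 3 → ℤ) : ℤ := mi r s 0 * t 0 + mi r s 1 * t 1 + mi r s 2 * t 2

/-- `det` of the matrix with the squares as entries -/
def d2 (r s t : Fin 3 → ℤ) : ℤ :=
  mi r s 0 * pl r s 0 * t 0 ^ 2 + mi r s 1 * pl r s 1 * t 1 ^ 2 + mi r s 2 * pl r s 2 * t 2 ^ 2

/-- the linear form `u` of the third row -/
def uu (r s t : Fin 3 → ℤ) : ℤ :=
  mi r s 0 * pl r s 0 * (r 0 * t 0) + mi r s 1 * pl r s 1 * (r 1 * t 1) + mi r s 2 * pl r s 2 * (r 2 * t 2)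

/-- the linear form `v` of the third row -/
def vv (r s t : Fin 3 → ℤ) : ℤ :=
  mi r s 0 * pl r s 0 * (s 0 * t 0) + mi r s 1 * pl r s 1 * (s 1 * t 1) + mi r s 2 * pl r s 2 * (s 2 * t 2)

section val

variable (r s : Fin 3 → ℤ)

theorem mi0 : mi r s 0 = r 1 * s 2 - r 2 * s 1 := rfl
theorem mi1 : mi r s 1 = r 2 * s 0 - r 0 * s 2 := rfl
theorem mi2 : mi r s 2 = r 0 * s 1 - r 1 * s 0 := rfl
theorem pl0 : pl r s 0 = r 1 * s 2 + r 2 * s 1 := rfl
theorem pl1 : pl r s 1 = r 2 * s 0 + r 0 * s 2 := rfl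
theorem pl2 : pl r s 2 = r 0 * s 1 + r 1 * s 0 := rfl
theorem ww0 : ww r s 0 = pl r s 1 * pl r s 2 := rfl
theorem ww1 : ww r s 1 = pl r s 2 * pl r s 0 := rfl
theorem ww2 : ww r s 2 = pl r s 0 * pl r s 1 := rfl

end val

/-- the key identity -/
theorem key (r s t : Fin 3 → ℤ) :
    2 * uu r s t * vv r s t = kap r s * dd r s t ^ 2 + KK r s * d2 r s t := by
  simp only [uu, vv, kap, KK, dd, d2, mi0, mi1, mi2, pl0, pl1, pl2]
  ring

theorem row (r s t : Fin 3 → ℤ) (j : Fin 3) :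
    KK r s * t j = vv r s t * r j + uu r s t * s j - dd r s t * ww r s j := by
  fin_cases j
  · show KK r s * t 0 = vv r s t * r 0 + uu r s t * s 0 - dd r s t * ww r s 0
    simp only [uu, vv, KK, dd, ww0, mi0, mi1, mi2, pl0, pl1, pl2]
    ring
  · show KK r s * t 1 = vv r s t * r 1 + uu r s t * s 1 - dd r s t * ww r s 1
    simp only [uu, vv, KK, dd, ww1, mi0, mi1, mi2, pl0, pl1, pl2]
    ring
  · show KK r s * t 2 = vv r s t * r 2 + uu r s t * s 2 - dd r s t * ww r s 2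
    simp only [uu, vv, KK, dd, ww2, mi0, mi1, mi2, pl0, pl1, pl2]
    ring

/-- the converse: the first determinant -/
theorem conv1 (r s t : Fin 3 → ℤ) (u v : ℤ) (hK : KK r s ≠ 0)
    (h : ∀ j, KK r s * t j = v * r j + u * s j - ww r s j) : dd r s t = 1 := by
  have h0 := h 0
  have h1 := h 1
  have h2 := h 2
  apply mul_left_cancel₀ hK
  have e : KK r s * dd r s t = mi r s 0 * (KK r s * t 0) + mi r s 1 * (KK r s * t 1) +
      mi r s 2 * (KK r s * t 2) := by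
    unfold dd
    ring
  rw [e, h0, h1, h2]
  simp only [KK, ww0, ww1, ww2, mi0, mi1, mi2, pl0, pl1, pl2]
  ring

/-- the converse: the second determinant -/
theorem conv2 (r s t : Fin 3 → ℤ) (u v : ℤ) (hK : KK r s ≠ 0) (huv : 2 * u * v = kap r s + KK r s)
    (h : ∀ j, KK r s * t j = v * r j + u * s j - ww r s j) : d2 r s t = 1 := by
  have h0 := h 0
  have h1 := h 1
  have h2 := h 2
  apply mul_left_cancel₀ hK
  apply mul_left_cancel₀ hK
  have e : KK r s * (KK r s * d2 r s t) = mi r s 0 * pl r s 0 * (KK r s * t 0) ^ 2 +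
      mi r s 1 * pl r s 1 * (KK r s * t 1) ^ 2 + mi r s 2 * pl r s 2 * (KK r s * t 2) ^ 2 := by
    unfold d2
    ring
  rw [e, h0, h1, h2]
  have e2 : mi r s 0 * pl r s 0 * (v * r 0 + u * s 0 - ww r s 0) ^ 2 +
      mi r s 1 * pl r s 1 * (v * r 1 + u * s 1 - ww r s 1) ^ 2 +
      mi r s 2 * pl r s 2 * (v * r 2 + u * s 2 - ww r s 2) ^ 2 = KK r s * (2 * u * v - kap r s) := by
    simp only [KK, kap, ww0, ww1, ww2, mi0, mi1, mi2, pl0, pl1, pl2]
    ring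
  rw [e2, huv]
  ring

/-- if the minor `r 1 * s 2 - r 2 * s 1` is zero then an entry is zero -/
theorem minor_aux {a1 a2 a3 a4 a5 a6 a8 a9 : ℤ} (h1 : a1 ≠ 0) (h3 : a3 ≠ 0) (h4 : a4 ≠ 0) (h6 : a6 ≠ 0)
    (hc : a2 * a6 - a3 * a5 = 0) (hd : (a3 * a4 - a1 * a6) * a8 + (a1 * a5 - a2 * a4) * a9 = 1)
    (hd2 : (a3 * a4 - a1 * a6) * (a3 * a4 + a1 * a6) * a8 ^ 2 + (a1 * a5 - a2 * a4) * (a1 * a5 + a2 * a4) * a9 ^ 2 = 1) :
    False := by
  obtain ⟨x, hx⟩ : ∃ x, x = a3 * a4 - a1 * a6 := ⟨_, rfl⟩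
  obtain ⟨y, hy⟩ : ∃ y, y = a1 * a5 - a2 * a4 := ⟨_, rfl⟩
  have hcop : IsCoprime x y := ⟨a8, a9, by rw [hx, hy]; linarith [hd]⟩
  -- `a2 * x = - a3 * y`
  have e1 : a2 * x = -(a3 * y) := by
    rw [hx, hy]
    linear_combination (-a1) * hc
  have e2 : a5 * x = -(a6 * y) := by
    rw [hx, hy]
    linear_combination (-a4) * hc
  have hxa : x ∣ a3 := by
    have : x ∣ a3 * y := ⟨-a2, by linarith⟩
    exact hcop.dvd_of_dvd_mul_right this
  have hxb : x ∣ a6 := by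
    have : x ∣ a6 * y := ⟨-a5, by linarith⟩
    exact hcop.dvd_of_dvd_mul_right this
  obtain ⟨t, ht⟩ := hxa
  obtain ⟨t', ht'⟩ := hxb
  have hx0 : x ≠ 0 := by
    intro h
    rw [h, zero_mul] at ht
    exact h3 ht
  have e3 : a2 = -(t * y) := by
    apply mul_left_cancel₀ hx0
    rw [mul_comm, e1, ht]
    ring
  have e4 : a5 = -(t' * y) := by
    apply mul_left_cancel₀ hx0
    rw [mul_comm, e2, ht']
    ring
  have e5 : t * a4 - a1 * t' = 1 := by
    apply mul_left_cancel₀ hx0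
    have h9 : x * (t * a4 - a1 * t') = a3 * a4 - a1 * a6 := by
      rw [ht, ht']
      ring
    rw [mul_one, h9, ← hx]
  have e6 : (t * a4 + a1 * t') * (x ^ 2 * a8 ^ 2 - y ^ 2 * a9 ^ 2) = 1 := by
    rw [← hd2, ← hx, ← hy]
    rw [ht, ht', e3, e4]
    ring
  have e7 : t * a4 + a1 * t' = 1 ∨ t * a4 + a1 * t' = -1 := Int.isUnit_iff.1 (IsUnit.of_mul_eq_one _ e6)
  have ht0 : t ≠ 0 := by
    rintro rfl
    rw [mul_zero] at ht
    exact h3 ht
  rcases e7 with h | h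
  · have h8 : a1 * t' = 0 := by linarith
    rcases mul_eq_zero.1 h8 with h9 | h9
    · exact h1 h9
    · apply h6
      rw [ht', h9, mul_zero]
  · have h8 : t * a4 = 0 := by linarith
    rcases mul_eq_zero.1 h8 with h9 | h9
    · exact ht0 h9
    · exact h4 h9

/-- all three minors are nonzero -/
theorem KK_ne {r s t : Fin 3 → ℤ} (hr : ∀ j, r j ≠ 0) (hs : ∀ j, s j ≠ 0) (h1 : dd r s t = 1) (h2 : d2 r s t = 1) :
    KK r s ≠ 0 := by
  intro h
  unfold KK at h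
  unfold dd at h1
  unfold d2 at h2
  rcases mul_eq_zero.1 h with h3 | h3
  · rcases mul_eq_zero.1 h3 with h4 | h4
    · rw [h4] at h1 h2
      refine minor_aux (a1 := r 0) (a2 := r 1) (a3 := r 2) (a4 := s 0) (a5 := s 1) (a6 := s 2) (a8 := t 1)
        (a9 := t 2) (hr 0) (hr 2) (hs 0) (hs 2) h4 ?_ ?_
      · have e : (r 2 * s 0 - r 0 * s 2) * t 1 + (r 0 * s 1 - r 1 * s 0) * t 2 =
            0 * t 0 + mi r s 1 * t 1 + mi r s 2 * t 2 := by simp only [mi1, mi2]; ring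
        rw [e]; exact h1
      · have e : (r 2 * s 0 - r 0 * s 2) * (r 2 * s 0 + r 0 * s 2) * t 1 ^ 2 +
            (r 0 * s 1 - r 1 * s 0) * (r 0 * s 1 + r 1 * s 0) * t 2 ^ 2 =
            0 * pl r s 0 * t 0 ^ 2 + mi r s 1 * pl r s 1 * t 1 ^ 2 + mi r s 2 * pl r s 2 * t 2 ^ 2 := by
          simp only [mi1, mi2, pl1, pl2]; ring
        rw [e]; exact h2
    · rw [h4] at h1 h2
      refine minor_aux (a1 := r 1) (a2 := r 2) (a3 := r 0) (a4 := s 1) (a5 := s 2) (a6 := s 0) (a8 := t 2)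
        (a9 := t 0) (hr 1) (hr 0) (hs 1) (hs 0) h4 ?_ ?_
      · have e : (r 0 * s 1 - r 1 * s 0) * t 2 + (r 1 * s 2 - r 2 * s 1) * t 0 =
            mi r s 0 * t 0 + 0 * t 1 + mi r s 2 * t 2 := by simp only [mi0, mi2]; ring
        rw [e]; exact h1
      · have e : (r 0 * s 1 - r 1 * s 0) * (r 0 * s 1 + r 1 * s 0) * t 2 ^ 2 +
            (r 1 * s 2 - r 2 * s 1) * (r 1 * s 2 + r 2 * s 1) * t 0 ^ 2 =
            mi r s 0 * pl r s 0 * t 0 ^ 2 + 0 * pl r s 1 * t 1 ^ 2 + mi r s 2 * pl r s 2 * t 2 ^ 2 := by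
          simp only [mi0, mi2, pl0, pl2]; ring
        rw [e]; exact h2
  · rw [h3] at h1 h2
    refine minor_aux (a1 := r 2) (a2 := r 0) (a3 := r 1) (a4 := s 2) (a5 := s 0) (a6 := s 1) (a8 := t 0)
      (a9 := t 1) (hr 2) (hr 1) (hs 2) (hs 1) h3 ?_ ?_
    · have e : (r 1 * s 2 - r 2 * s 1) * t 0 + (r 2 * s 0 - r 0 * s 2) * t 1 =
          mi r s 0 * t 0 + mi r s 1 * t 1 + 0 * t 2 := by simp only [mi0, mi1]; ring
      rw [e]; exact h1
    · have e : (r 1 * s 2 - r 2 * s 1) * (r 1 * s 2 + r 2 * s 1) * t 0 ^ 2 +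
          (r 2 * s 0 - r 0 * s 2) * (r 2 * s 0 + r 0 * s 2) * t 1 ^ 2 =
          mi r s 0 * pl r s 0 * t 0 ^ 2 + mi r s 1 * pl r s 1 * t 1 ^ 2 + 0 * pl r s 2 * t 2 ^ 2 := by
        simp only [mi0, mi1, pl0, pl1]; ring
      rw [e]; exact h2

end Pool.Agent.helper31.Gor
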