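import Pool.Agent.helper31.Gor.Basic

set_option autoImplicit false

/-!
# MP_197ffd: the set `S`, its fibres over the first two rows, and an infinite family
-/

namespace Pool.Agent.helper31.Gor

open Matrix

/-- the integer `3 × 3` matrices without entries `-1`, `0`, `1` such that the matrix and the matrix of the squares of its
entries have determinant `1` -/
def SG : Set (Matrix (Fin 3) (Fin 3) ℤ) :=
  {A | (∀ i j, A i j ≠ -1 ∧ A i j ≠ 0 ∧ A i j ≠ 1) ∧ A.det = 1 ∧ (A.map (fun x => x ^ 2)).det = 1}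

/-- the third rows that complete `r`, `s` to a member of `SG` -/
def fib (r s : Fin 3 → ℤ) : Set (Fin 3 → ℤ) := {t | Matrix.of ![r, s, t] ∈ SG}

theorem det_dd (A : Matrix (Fin 3) (Fin 3) ℤ) : A.det = dd (A 0) (A 1) (A 2) := by
  rw [Matrix.det_fin_three]
  simp only [dd, mi0, mi1, mi2]
  ring

theorem det_d2 (A : Matrix (Fin 3) (Fin 3) ℤ) : (A.map (fun x => x ^ 2)).det = d2 (A 0) (A 1) (A 2) := by
  rw [Matrix.det_fin_three]
  simp only [d2, mi0, mi1, mi2, pl0, pl1, pl2, Matrix.map_apply]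
  ring

/-- **The description of `S`.** -/
theorem descr (A : Matrix (Fin 3) (Fin 3) ℤ) (hA : ∀ i j, A i j ≠ -1 ∧ A i j ≠ 0 ∧ A i j ≠ 1) :
    A ∈ SG ↔ KK (A 0) (A 1) ≠ 0 ∧ ∃ u v : ℤ, 2 * u * v = kap (A 0) (A 1) + KK (A 0) (A 1) ∧
      ∀ j, KK (A 0) (A 1) * A 2 j = v * A 0 j + u * A 1 j - ww (A 0) (A 1) j := by
  constructor
  · rintro ⟨-, h1, h2⟩
    rw [det_dd] at h1
    rw [det_d2] at h2
    refine ⟨KK_ne (fun j => (hA 0 j).2.1) (fun j => (hA 1 j).2.1) h1 h2, uu (A 0) (A 1) (A 2),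
      vv (A 0) (A 1) (A 2), ?_, ?_⟩
    · rw [key, h1, h2]
      ring
    · intro j
      rw [row, h1]
      ring
  · rintro ⟨hK, u, v, huv, h⟩
    refine ⟨hA, ?_, ?_⟩
    · rw [det_dd]
      exact conv1 _ _ _ u v hK h
    · rw [det_d2]
      exact conv2 _ _ _ u v hK huv h

theorem fib_props {r s t : Fin 3 → ℤ} (ht : t ∈ fib r s) : KK r s ≠ 0 ∧ dd r s t = 1 ∧ d2 r s t = 1 := by
  obtain ⟨hA, h1, h2⟩ := ht
  rw [det_dd] at h1
  rw [det_d2] at h2
  have h1' : dd r s t = 1 := h1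
  have h2' : d2 r s t = 1 := h2
  exact ⟨KK_ne (fun j => (hA 0 j).2.1) (fun j => (hA 1 j).2.1) h1' h2', h1', h2'⟩

/-- the third row is determined by `u` -/
theorem uu_inj {r s : Fin 3 → ℤ} (hD : kap r s + KK r s ≠ 0) {t t' : Fin 3 → ℤ} (ht : t ∈ fib r s)
    (ht' : t' ∈ fib r s) (h : uu r s t = uu r s t') : t = t' := by
  obtain ⟨hK, h1, h2⟩ := fib_props ht
  obtain ⟨-, h1', h2'⟩ := fib_props ht'
  have e := key r s t
  have e' := key r s t'
  rw [h1, h2] at e
  rw [h1', h2'] at e'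
  have hu : uu r s t ≠ 0 := by
    intro h0
    apply hD
    rw [h0] at e
    linarith
  have hv : vv r s t = vv r s t' := by
    have e3 : 2 * uu r s t * vv r s t = 2 * uu r s t * vv r s t' := by
      rw [e]
      rw [h]
      rw [e']
    exact mul_left_cancel₀ (mul_ne_zero two_ne_zero hu) e3
  funext j
  apply mul_left_cancel₀ hK
  rw [row, row r s t', h1, h1', h, hv]

/-- **The fibres are finite.** -/
theorem fib_finite {r s : Fin 3 → ℤ} (hD : kap r s + KK r s ≠ 0) :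
    (fib r s).Finite ∧ (fib r s).ncard ≤ 2 * ((kap r s + KK r s) / 2).natAbs.divisors.card := by
  classical
  obtain ⟨n, hn⟩ : ∃ n, n = ((kap r s + KK r s) / 2).natAbs := ⟨_, rfl⟩
  let F : Finset ℤ := (n.divisors.image (fun d : ℕ => (d : ℤ))) ∪ (n.divisors.image (fun d : ℕ => -(d : ℤ)))
  have hF : F.card ≤ 2 * n.divisors.card := by
    refine (Finset.card_union_le _ _).trans ?_
    have h1 := Finset.card_image_le (s := n.divisors) (f := fun d : ℕ => (d : ℤ))
    have h2 := Finset.card_image_le (s := n.divisors) (f := fun d : ℕ => -(d : ℤ))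
    omega
  have hmaps : ∀ t ∈ fib r s, uu r s t ∈ (F : Set ℤ) := by
    intro t ht
    obtain ⟨hK, h1, h2⟩ := fib_props ht
    have e := key r s t
    rw [h1, h2] at e
    have e2 : kap r s + KK r s = 2 * (uu r s t * vv r s t) := by linarith
    have e3 : (kap r s + KK r s) / 2 = uu r s t * vv r s t := by
      rw [e2]
      exact Int.mul_ediv_cancel_left _ two_ne_zero
    have hn2 : n = (uu r s t).natAbs * (vv r s t).natAbs := by rw [hn, e3, Int.natAbs_mul]
    have hn0 : n ≠ 0 := by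
      rw [hn, e3]
      intro h0
      rw [Int.natAbs_eq_zero] at h0
      apply hD
      rw [e2, h0, mul_zero]
    have hmem : (uu r s t).natAbs ∈ n.divisors := Nat.mem_divisors.2 ⟨⟨_, hn2⟩, hn0⟩
    have : uu r s t ∈ F := by
      rw [Finset.mem_union, Finset.mem_image, Finset.mem_image]
      rcases Int.natAbs_eq (uu r s t) with h | h
      · exact Or.inl ⟨_, hmem, h.symm⟩
      · exact Or.inr ⟨_, hmem, h.symm⟩
    exact this
  have hinj : Set.InjOn (uu r s) (fib r s) := fun t ht t' ht' h => uu_inj hD ht ht' h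
  have hfin : (fib r s).Finite := Set.Finite.of_finite_image
    ((Finset.finite_toSet F).subset (by rintro _ ⟨t, ht, rfl⟩; exact hmaps t ht)) hinj
  refine ⟨hfin, ?_⟩
  rw [← hn]
  refine le_trans ?_ hF
  rw [← Set.ncard_coe_finset F]
  exact Set.ncard_le_ncard_of_injOn (uu r s) hmaps hinj (Finset.finite_toSet F)

/-! ### the family with all minors `1` -/

section fam

variable (a b c d u v : ℤ)

/-- the third row of the family -/
def t3 : Fin 3 → ℤ :=
  ![v * a + u * c + ((a + b) * c + a * (c + d)) * (a * d + b * c),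
    v * b + u * d + (a * d + b * c) * (b * (c + d) + (a + b) * d),
    -(v * (a + b) + u * (c + d) + (b * (c + d) + (a + b) * d) * ((a + b) * c + a * (c + d)))]

theorem fam_mi (h : a * d - b * c = 1) : mi ![a, b, -(a + b)] ![c, d, -(c + d)] 0 = 1 ∧
    mi ![a, b, -(a + b)] ![c, d, -(c + d)] 1 = 1 ∧ mi ![a, b, -(a + b)] ![c, d, -(c + d)] 2 = 1 := by
  refine ⟨?_, ?_, ?_⟩
  · rw [mi0]
    show b * -(c + d) - -(a + b) * d = 1
    linear_combination h
  · rw [mi1]
    show -(a + b) * c - a * -(c + d) = 1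
    linear_combination h
  · rw [mi2]
    show a * d - b * c = 1
    exact h

theorem fam_KK (h : a * d - b * c = 1) : KK ![a, b, -(a + b)] ![c, d, -(c + d)] = 1 := by
  obtain ⟨h0, h1, h2⟩ := fam_mi a b c d h
  unfold KK
  rw [h0, h1, h2]
  rfl

theorem fam_kap : kap ![a, b, -(a + b)] ![c, d, -(c + d)] =
    (b * (c + d) + (a + b) * d) * ((a + b) * c + a * (c + d)) * (a * d + b * c) := by
  unfold kap
  rw [pl0, pl1, pl2]
  show (b * -(c + d) + -(a + b) * d) * (-(a + b) * c + a * -(c + d)) * (a * d + b * c) = _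
  ring

theorem fam_row (h : a * d - b * c = 1) (j : Fin 3) :
    KK ![a, b, -(a + b)] ![c, d, -(c + d)] * t3 a b c d u v j =
      v * (![a, b, -(a + b)] : Fin 3 → ℤ) j + u * (![c, d, -(c + d)] : Fin 3 → ℤ) j -
        ww ![a, b, -(a + b)] ![c, d, -(c + d)] j := by
  rw [fam_KK a b c d h, one_mul]
  fin_cases j
  · show t3 a b c d u v 0 = v * a + u * c - ww ![a, b, -(a + b)] ![c, d, -(c + d)] 0
    rw [ww0, pl1, pl2]
    show v * a + u * c + ((a + b) * c + a * (c + d)) * (a * d + b * c) =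
      v * a + u * c - (-(a + b) * c + a * -(c + d)) * (a * d + b * c)
    ring
  · show t3 a b c d u v 1 = v * b + u * d - ww ![a, b, -(a + b)] ![c, d, -(c + d)] 1
    rw [ww1, pl2, pl0]
    show v * b + u * d + (a * d + b * c) * (b * (c + d) + (a + b) * d) =
      v * b + u * d - (a * d + b * c) * (b * -(c + d) + -(a + b) * d)
    ring
  · show t3 a b c d u v 2 = v * -(a + b) + u * -(c + d) - ww ![a, b, -(a + b)] ![c, d, -(c + d)] 2
    rw [ww2, pl0, pl1]
    show -(v * (a + b) + u * (c + d) + (b * (c + d) + (a + b) * d) * ((a + b) * c + a * (c + d))) =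
      v * -(a + b) + u * -(c + d) - (b * -(c + d) + -(a + b) * d) * (-(a + b) * c + a * -(c + d))
    ring

variable {a b c d u v}

/-- **The family.** -/
theorem fam_mem (ha : 2 ≤ a) (hb : 2 ≤ b) (hc : 2 ≤ c) (hd : 2 ≤ d) (h : a * d - b * c = 1) (hu : 1 ≤ u)
    (hv : 1 ≤ v) (huv : 2 * u * v =
      (b * (c + d) + (a + b) * d) * ((a + b) * c + a * (c + d)) * (a * d + b * c) + 1) :
    Matrix.of ![![a, b, -(a + b)], ![c, d, -(c + d)], t3 a b c d u v] ∈ SG := by
  have h1 : 0 < v * a := by positivity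
  have h2 : 0 < u * c := by positivity
  have h3 : 0 < v * b := by positivity
  have h4 : 0 < u * d := by positivity
  have h5 : 0 < ((a + b) * c + a * (c + d)) * (a * d + b * c) := by positivity
  have h6 : 0 < (a * d + b * c) * (b * (c + d) + (a + b) * d) := by positivity
  have h7 : 0 < (b * (c + d) + (a + b) * d) * ((a + b) * c + a * (c + d)) := by positivity
  have h8 : 0 < v * (a + b) := by positivity
  have h9 : 0 < u * (c + d) := by positivity
  rw [descr]
  · refine ⟨?_, u, v, ?_, ?_⟩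
    · show KK ![a, b, -(a + b)] ![c, d, -(c + d)] ≠ 0
      rw [fam_KK a b c d h]
      exact one_ne_zero
    · show 2 * u * v = kap ![a, b, -(a + b)] ![c, d, -(c + d)] + KK ![a, b, -(a + b)] ![c, d, -(c + d)]
      rw [fam_KK a b c d h, fam_kap, huv]
    · exact fam_row a b c d u v h
  · intro i j
    fin_cases i <;> fin_cases j
    · show a ≠ -1 ∧ a ≠ 0 ∧ a ≠ 1
      omega
    · show b ≠ -1 ∧ b ≠ 0 ∧ b ≠ 1
      omega
    · show -(a + b) ≠ -1 ∧ -(a + b) ≠ 0 ∧ -(a + b) ≠ 1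
      omega
    · show c ≠ -1 ∧ c ≠ 0 ∧ c ≠ 1
      omega
    · show d ≠ -1 ∧ d ≠ 0 ∧ d ≠ 1
      omega
    · show -(c + d) ≠ -1 ∧ -(c + d) ≠ 0 ∧ -(c + d) ≠ 1
      omega
    · show v * a + u * c + ((a + b) * c + a * (c + d)) * (a * d + b * c) ≠ -1 ∧
        v * a + u * c + ((a + b) * c + a * (c + d)) * (a * d + b * c) ≠ 0 ∧
        v * a + u * c + ((a + b) * c + a * (c + d)) * (a * d + b * c) ≠ 1
      refine ⟨?_, ?_, ?_⟩ <;> intro h10 <;> linarith
    · show v * b + u * d + (a * d + b * c) * (b * (c + d) + (a + b) * d) ≠ -1 ∧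
        v * b + u * d + (a * d + b * c) * (b * (c + d) + (a + b) * d) ≠ 0 ∧
        v * b + u * d + (a * d + b * c) * (b * (c + d) + (a + b) * d) ≠ 1
      refine ⟨?_, ?_, ?_⟩ <;> intro h10 <;> linarith
    · show -(v * (a + b) + u * (c + d) + (b * (c + d) + (a + b) * d) * ((a + b) * c + a * (c + d))) ≠ -1 ∧
        -(v * (a + b) + u * (c + d) + (b * (c + d) + (a + b) * d) * ((a + b) * c + a * (c + d))) ≠ 0 ∧
        -(v * (a + b) + u * (c + d) + (b * (c + d) + (a + b) * d) * ((a + b) * c + a * (c + d))) ≠ 1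
      refine ⟨?_, ?_, ?_⟩ <;> intro h10 <;> linarith

end fam

/-! ### the fibres are not bounded -/

/-- the polynomial `κ + 1` of the one-parameter family -/
def gg (x : ℤ) : ℤ := (49 + 80 * x) * (31 + 48 * x) * (19 + 30 * x) + 1

theorem gg_even (x : ℤ) : (2 : ℤ) ∣ gg x := by
  unfold gg
  exact ⟨57600 * x ^ 3 + 108960 * x ^ 2 + 68689 * x + 14431, by ring⟩

theorem exists_x (k : ℕ) : ∃ x : ℤ, 0 ≤ x ∧ (3 : ℤ) ^ k ∣ gg x := by
  induction k with
  | zero => exact ⟨0, le_rfl, by simp⟩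
  | succ k ih =>
    obtain ⟨x, hx, q, hq⟩ := ih
    refine ⟨x + 3 ^ k * (q % 3), by have := Int.emod_nonneg q (show (3 : ℤ) ≠ 0 by norm_num); positivity, ?_⟩
    obtain ⟨y, hy⟩ : ∃ y, y = q % 3 := ⟨_, rfl⟩
    obtain ⟨z, hz⟩ : ∃ z, q = y + 3 * z := ⟨q / 3, by rw [hy]; exact (Int.emod_add_mul_ediv q 3).symm⟩
    rw [← hy]
    obtain ⟨h, hh⟩ : ∃ h, h = (3 : ℤ) ^ k * y := ⟨_, rfl⟩
    have e : gg (x + h) = gg x + h * (80 * (31 + 48 * x) * (19 + 30 * x) +
        3 * (16 * (49 + 80 * x) * (19 + 30 * x) + 10 * (49 + 80 * x) * (31 + 48 * x) +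
        h * (1280 * (19 + 30 * x) + 800 * (31 + 48 * x) + 480 * (49 + 80 * x) + 38400 * h))) := by
      unfold gg
      ring
    rw [← hh, e, hq, hh, hz]
    refine ⟨z + y * (15707 + 49120 * x + 38400 * x ^ 2 + (16 * (49 + 80 * x) * (19 + 30 * x) + 10 * (49 + 80 * x) * (31 + 48 * x) +
        3 ^ k * y * (1280 * (19 + 30 * x) + 800 * (31 + 48 * x) + 480 * (49 + 80 * x) + 38400 * (3 ^ k * y)))), ?_⟩
    rw [pow_succ]
    ring

end Pool.Agent.helper31.Gor
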