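import Pool.Agent.helper31.Gor.Main

set_option autoImplicit false

/-!
# MP_197ffd: the fibres over the first two rows are not bounded, and `SG` is infinite
-/

namespace Pool.Agent.helper31.Gor

open Matrix

/-- `u` can be read off from the third row of the family -/
theorem uu_t3 {a b c d u v : ℤ} (h : a * d - b * c = 1)
    (hmem : t3 a b c d u v ∈ fib ![a, b, -(a + b)] ![c, d, -(c + d)]) :
    uu ![a, b, -(a + b)] ![c, d, -(c + d)] (t3 a b c d u v) = u := by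
  obtain ⟨hK, h1, h2⟩ := fib_props hmem
  have e0 := row ![a, b, -(a + b)] ![c, d, -(c + d)] (t3 a b c d u v) 0
  have e1 := row ![a, b, -(a + b)] ![c, d, -(c + d)] (t3 a b c d u v) 1
  rw [fam_row a b c d u v h, h1] at e0 e1
  obtain ⟨U, hU⟩ : ∃ U, U = uu ![a, b, -(a + b)] ![c, d, -(c + d)] (t3 a b c d u v) := ⟨_, rfl⟩
  obtain ⟨V, hV⟩ : ∃ V, V = vv ![a, b, -(a + b)] ![c, d, -(c + d)] (t3 a b c d u v) := ⟨_, rfl⟩
  obtain ⟨w0, hw0⟩ : ∃ w0, w0 = ww ![a, b, -(a + b)] ![c, d, -(c + d)] 0 := ⟨_, rfl⟩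
  obtain ⟨w1, hw1⟩ : ∃ w1, w1 = ww ![a, b, -(a + b)] ![c, d, -(c + d)] 1 := ⟨_, rfl⟩
  rw [← hU, ← hV, ← hw0] at e0
  rw [← hU, ← hV, ← hw1] at e1
  rw [← hU]
  have e0' : v * a + u * c - w0 = V * a + U * c - 1 * w0 := e0
  have e1' : v * b + u * d - w1 = V * b + U * d - 1 * w1 := e1
  have e3 : (U - u) * (a * d - b * c) = 0 := by linear_combination b * e0' - a * e1'
  rw [h, mul_one] at e3
  linarith

theorem gg_eq (x : ℤ) : ((3 + 5 * x) * (3 + 5) + ((2 + 3 * x) + (3 + 5 * x)) * 5) *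
    (((2 + 3 * x) + (3 + 5 * x)) * 3 + (2 + 3 * x) * (3 + 5)) * ((2 + 3 * x) * 5 + (3 + 5 * x) * 3) + 1 = gg x := by
  unfold gg
  ring

theorem gg_pos {x : ℤ} (hx : 0 ≤ x) : 0 < gg x := by
  unfold gg
  positivity

/-- **The fibres are not bounded.** -/
theorem unb (N : ℕ) : ∃ r s : Fin 3 → ℤ, kap r s + KK r s ≠ 0 ∧ N ≤ (fib r s).ncard := by
  classical
  obtain ⟨x, hx, h3⟩ := exists_x N
  have hcop : IsCoprime (2 : ℤ) (3 ^ N) := by
    apply IsCoprime.pow_right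
    exact ⟨-1, 1, by norm_num⟩
  obtain ⟨q, hq⟩ := hcop.mul_dvd (gg_even x) h3
  have hg := gg_pos hx
  have hq0 : 0 < q := by
    rw [hq] at hg
    exact (mul_pos_iff_of_pos_left (by positivity)).1 hg
  have hdet : (2 + 3 * x) * 5 - (3 + 5 * x) * 3 = 1 := by ring
  refine ⟨![2 + 3 * x, 3 + 5 * x, -((2 + 3 * x) + (3 + 5 * x))], ![3, 5, -(3 + 5)], ?_, ?_⟩
  · rw [fam_kap, fam_KK _ _ _ _ hdet, gg_eq]
    exact hg.ne'
  · have hD : kap ![2 + 3 * x, 3 + 5 * x, -((2 + 3 * x) + (3 + 5 * x))] ![3, 5, -(3 + 5)] +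
        KK ![2 + 3 * x, 3 + 5 * x, -((2 + 3 * x) + (3 + 5 * x))] ![3, 5, -(3 + 5)] ≠ 0 := by
      rw [fam_kap, fam_KK _ _ _ _ hdet, gg_eq]
      exact hg.ne'
    obtain ⟨hfin, -⟩ := fib_finite hD
    have hmem : ∀ i ∈ Finset.range N, t3 (2 + 3 * x) (3 + 5 * x) 3 5 (3 ^ i) (3 ^ (N - i) * q) ∈
        fib ![2 + 3 * x, 3 + 5 * x, -((2 + 3 * x) + (3 + 5 * x))] ![3, 5, -(3 + 5)] := by
      intro i hi
      have hiN : i ≤ N := (Finset.mem_range.1 hi).le
      refine fam_mem (by linarith) (by linarith) (by norm_num) (by norm_num) hdet ?_ ?_ ?_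
      · exact one_le_pow₀ (by norm_num)
      · have h4 : (1 : ℤ) ≤ 3 ^ (N - i) := one_le_pow₀ (by norm_num)
        nlinarith
      · rw [gg_eq, hq]
        have h5 : (3 : ℤ) ^ N = 3 ^ i * 3 ^ (N - i) := by rw [← pow_add, Nat.add_sub_cancel' hiN]
        rw [h5]
        ring
    have hinj : Set.InjOn (fun i : ℕ => t3 (2 + 3 * x) (3 + 5 * x) 3 5 (3 ^ i) (3 ^ (N - i) * q))
        (Finset.range N : Set ℕ) := by
      intro i hi j hj hij
      have ei := uu_t3 hdet (hmem i (Finset.mem_coe.1 hi))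
      have ej := uu_t3 hdet (hmem j (Finset.mem_coe.1 hj))
      have hij' : t3 (2 + 3 * x) (3 + 5 * x) 3 5 (3 ^ i) (3 ^ (N - i) * q) =
          t3 (2 + 3 * x) (3 + 5 * x) 3 5 (3 ^ j) (3 ^ (N - j) * q) := hij
      rw [hij', ej] at ei
      have : (3 : ℤ) ^ i = 3 ^ j := ei.symm
      exact pow_right_injective₀ (by norm_num) (by norm_num) this
    calc N = ((Finset.range N : Set ℕ)).ncard := by rw [Set.ncard_coe_finset, Finset.card_range]
      _ = ((fun i : ℕ => t3 (2 + 3 * x) (3 + 5 * x) 3 5 (3 ^ i) (3 ^ (N - i) * q)) ''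
            (Finset.range N : Set ℕ)).ncard := hinj.ncard_image.symm
      _ ≤ _ := by
        apply Set.ncard_le_ncard _ hfin
        rintro _ ⟨i, hi, rfl⟩
        exact hmem i (Finset.mem_coe.1 hi)

/-- **`SG` is infinite.** -/
theorem SG_infinite : SG.Infinite := by
  intro hfin
  obtain ⟨r, s, -, h⟩ := unb (SG.ncard + 1)
  have h2 : (fib r s).ncard ≤ SG.ncard := by
    refine Set.ncard_le_ncard_of_injOn (fun t => Matrix.of ![r, s, t]) (fun t ht => ht) ?_ hfin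
    intro t _ t' _ htt
    have h3 : (Matrix.of ![r, s, t] : Matrix (Fin 3) (Fin 3) ℤ) 2 = Matrix.of ![r, s, t'] 2 := by
      have : (Matrix.of ![r, s, t] : Matrix (Fin 3) (Fin 3) ℤ) = Matrix.of ![r, s, t'] := htt
      rw [this]
    exact h3
  omega

end Pool.Agent.helper31.Gor
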